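import Pool.Agent.Results.MP_fd686d_al.NotHTM

/-!
# A c-minimal group with a compact open normal subgroup whose discrete quotient is not minimal

The group `M` of the starting file for MP_adec7c: torsion-free, hereditarily minimal, with open centre
`ℤ_p` and `M / Z(M)` a free Burnside group of infinite rank. The latter has a nondiscrete Hausdorff group
topology (MP_fd686d).
-/

set_option autoImplicit false
set_option linter.style.haveILetI false

namespace Pool.Agent.Results.MP_e69082_gt.NonminimalDiscreteQuotient

open Topology

universe u

/-- A topological group is minimal if there is no strictly coarser Hausdorff group topology. -/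
def Minimal (G : Type u) [Group G] [τ : TopologicalSpace G] : Prop :=
  ∀ σ : TopologicalSpace G, @IsTopologicalGroup G σ _ → @T2Space G σ → τ ≤ σ → σ = τ

/-- A topological group is c-minimal if all its closed subgroups are minimal. -/
def CMinimal (G : Type u) [Group G] [TopologicalSpace G] : Prop :=
  ∀ H : Subgroup G, IsClosed (H : Set G) → Minimal H

/-- A topological group is hereditarily minimal if all its subgroups are minimal. -/
def HereditarilyMinimal (G : Type u) [Group G] [TopologicalSpace G] : Prop :=
  ∀ H : Subgroup G, Minimal H

/-- There is a c-minimal (even hereditarily minimal) Hausdorff topological group `G` with a compact open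
normal subgroup `N` such that the discrete group `G / N` is not minimal; in particular `G / N` is not
hereditarily minimal. -/
theorem result : ∃ (G : Type) (_ : Group G) (_ : TopologicalSpace G) (_ : IsTopologicalGroup G)
    (_ : T2Space G), CMinimal G ∧ HereditarilyMinimal G ∧
      ∃ (N : Subgroup G) (_ : N.Normal), IsCompact (N : Set G) ∧ IsOpen (N : Set G) ∧
        ¬ Minimal (G ⧸ N) ∧ ¬ HereditarilyMinimal (G ⧸ N) := by
  obtain ⟨p0, h⟩ := Pool.Agent.Results.MP_adec7c_al.BurnsideQuotients.result.{0}.1
  obtain ⟨p, hle, hp⟩ := Nat.exists_infinite_primes p0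
  haveI : Fact p.Prime := ⟨hp⟩
  obtain ⟨M, hG, hTop, hTG, hT2, -, hopen, ⟨eZ⟩, ⟨e⟩, -, -, -, -, hHM, hLC, -, -⟩ := h p hle ℕ
  haveI : DiscreteTopology (M ⧸ Subgroup.center M) := QuotientGroup.discreteTopology hopen
  refine ⟨M, hG, hTop, hTG, hT2, fun H _ => hHM H, hHM, Subgroup.center M, inferInstance, ?_, hopen,
    ?_, ?_⟩
  · haveI : CompactSpace (Subgroup.center M) := by
      haveI : CompactSpace (Multiplicative ℤ_[p]) := inferInstanceAs (CompactSpace ℤ_[p])
      exact eZ.toHomeomorph.compactSpace
    exact isCompact_iff_compactSpace.2 inferInstance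
  · exact Pool.Agent.Results.MP_fd686d_al.NotHTM.not_minimal hp.one_lt e
  · intro hQ
    exact Pool.Agent.Results.MP_fd686d_al.NotHTM.not_minimal hp.one_lt
      ((Subgroup.topEquiv (G := M ⧸ Subgroup.center M)).trans e) (hQ ⊤)

end Pool.Agent.Results.MP_e69082_gt.NonminimalDiscreteQuotient
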